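import Pool.Agent.H11Cara.Upper

open Complex Metric Set Filter Topology Real

namespace Pool.Agent.H11Cara

noncomputable def aM (m : ℕ) : ℝ := √(((m : ℝ) + 1) ^ (m + 1) / (m : ℝ) ^ m)

lemma aM_pos {m : ℕ} (hm : 2 ≤ m) : 0 < aM m := by
  unfold aM
  apply Real.sqrt_pos.mpr
  have : (0 : ℝ) < m := by exact_mod_cast (by omega : 0 < m)
  positivity

lemma aM_sq {m : ℕ} (hm : 2 ≤ m) : aM m ^ 2 = ((m : ℝ) + 1) ^ (m + 1) / (m : ℝ) ^ m := by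
  unfold aM
  apply Real.sq_sqrt
  have : (0 : ℝ) < m := by exact_mod_cast (by omega : 0 < m)
  positivity

variable {E : Type*} [NormedAddCommGroup E] [InnerProductSpace ℂ E] [CompleteSpace E]

theorem upper {h : E → E} (hh : AnalyticOnNhd ℂ h (ball 0 1)) (h0 : h 0 = 0)
    (hD : fderiv ℂ h 0 = ContinuousLinearMap.id ℂ E)
    (hpos : ∀ z ∈ ball (0 : E) 1, 0 ≤ (inner ℂ z (h z)).re)
    {m : ℕ} (hm : 2 ≤ m) {e : E} (he : ‖e‖ = 1) :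
    ‖((m.factorial : ℂ)⁻¹) • iteratedFDeriv ℂ m h 0 (fun _ => e)‖ ≤ aM m := by
  set v := ((m.factorial : ℂ)⁻¹) • iteratedFDeriv ℂ m h 0 (fun _ => e) with hv
  have hm0 : (0 : ℝ) < m := by exact_mod_cast (by omega : 0 < m)
  by_cases hv0 : v = 0
  · rw [hv0, norm_zero]; exact (aM_pos hm).le
  have hvn : 0 < ‖v‖ := norm_pos_iff.mpr hv0
  set β : ℝ := √((m : ℝ) / (m + 1)) with hβ
  set ρ : ℝ := √(1 / ((m : ℝ) + 1)) with hρ
  have hβ2 : β ^ 2 = (m : ℝ) / (m + 1) := Real.sq_sqrt (by positivity)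
  have hρ2 : ρ ^ 2 = 1 / ((m : ℝ) + 1) := Real.sq_sqrt (by positivity)
  have hβ0 : 0 < β := Real.sqrt_pos.mpr (by positivity)
  have hρ0 : 0 < ρ := Real.sqrt_pos.mpr (by positivity)
  have hsum : β ^ 2 + ρ ^ 2 = 1 := by rw [hβ2, hρ2]; field_simp
  set V : E := (((-(ρ / ‖v‖) : ℝ)) : ℂ) • v with hV
  have hVn : ‖V‖ = ρ := by
    rw [hV, norm_smul, Complex.norm_real, norm_neg, Real.norm_of_nonneg (by positivity)]
    field_simp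
  have hin : (inner ℂ V v).re = -(ρ * ‖v‖) := by
    rw [hV, inner_smul_left, inner_self_eq_norm_sq_to_K, Complex.conj_ofReal]
    have : (((-(ρ / ‖v‖) : ℝ)) : ℂ) * ((‖v‖ : ℝ) : ℂ) ^ 2 = ((-(ρ * ‖v‖) : ℝ) : ℂ) := by
      rw [← Complex.ofReal_pow, ← Complex.ofReal_mul]
      congr 1
      field_simp
    refine (congrArg Complex.re this).trans (Complex.ofReal_re _)
  have hk : ∀ r ∈ Ioo (0 : ℝ) 1, 0 ≤ r ^ 2 * β ^ 2 + r ^ (2 * m) * (ρ ^ 2 + β ^ m * (-(ρ * ‖v‖))) := by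
    intro r hr
    have := key hh h0 hD hpos hm hβ0 hρ0.le he hVn hsum hr.1 hr.2
    rw [← hv, hin] at this
    exact this
  have hlim : Tendsto (fun r : ℝ => r ^ 2 * β ^ 2 + r ^ (2 * m) * (ρ ^ 2 + β ^ m * (-(ρ * ‖v‖))))
      (𝓝[<] 1) (𝓝 ((1 : ℝ) ^ 2 * β ^ 2 + (1 : ℝ) ^ (2 * m) * (ρ ^ 2 + β ^ m * (-(ρ * ‖v‖))))) := by
    have : Continuous (fun r : ℝ => r ^ 2 * β ^ 2 + r ^ (2 * m) * (ρ ^ 2 + β ^ m * (-(ρ * ‖v‖)))) := by
      fun_prop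
    exact (this.tendsto 1).mono_left nhdsWithin_le_nhds
  have hfin : 0 ≤ (1 : ℝ) ^ 2 * β ^ 2 + (1 : ℝ) ^ (2 * m) * (ρ ^ 2 + β ^ m * (-(ρ * ‖v‖))) := by
    apply ge_of_tendsto hlim
    have : Ioo (0 : ℝ) 1 ∈ 𝓝[<] (1 : ℝ) := Ioo_mem_nhdsLT one_pos
    filter_upwards [this] with r hr using hk r hr
  have h1 : β ^ m * ρ * ‖v‖ ≤ 1 := by
    rw [one_pow, one_pow] at hfin
    nlinarith
  have h2 : (β ^ m * ρ * aM m) ^ 2 = 1 := by
    have : (β ^ m * ρ * aM m) ^ 2 = (β ^ 2) ^ m * ρ ^ 2 * aM m ^ 2 := by ring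
    rw [this, hβ2, hρ2, aM_sq hm, div_pow]
    have h3 : (0 : ℝ) < (m : ℝ) ^ m := by positivity
    have h4 : (0 : ℝ) < ((m : ℝ) + 1) ^ m := by positivity
    rw [pow_succ]
    field_simp
  have h3 : β ^ m * ρ * aM m = 1 := by
    have h4 : 0 < β ^ m * ρ * aM m := by have := aM_pos hm; positivity
    nlinarith
  have h4 : 0 < β ^ m * ρ := by positivity
  have h5 : β ^ m * ρ * ‖v‖ ≤ β ^ m * ρ * aM m := by rw [h3]; exact h1
  exact le_of_mul_le_mul_left h5 h4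

end Pool.Agent.H11Cara
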