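import Mathlib

/-!
Definitions for MP_2482e1_an (Carathéodory family of the Euclidean unit ball of `ℂⁿ`).
-/

namespace Pool.Agent.H11Cara

open Metric

/-- Self-maps (of all) of `ℂⁿ` with the Euclidean norm. -/
abbrev Map (n : ℕ) : Type := EuclideanSpace ℂ (Fin n) → EuclideanSpace ℂ (Fin n)

/-- The Carathéodory family `M` of the unit ball of `ℂⁿ`: holomorphic maps `h : 𝔹ⁿ → ℂⁿ`
(complex analytic near every point of the open unit ball) with `h 0 = 0`, `Dh(0) = I` and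
`Re ⟨h z, z⟩ > 0` for `z ∈ 𝔹ⁿ \ {0}`.  Mathlib's `inner ℂ z w` is `∑ j, conj (z j) * w j`, so
`inner ℂ z (h z)` is `⟨h(z), z⟩` of the problem. -/
def Caratheodory (n : ℕ) : Set (Map n) :=
  {h | AnalyticOnNhd ℂ h (ball 0 1) ∧ h 0 = 0 ∧ HasFDerivAt h (ContinuousLinearMap.id ℂ _) 0 ∧
    ∀ z ∈ ball 0 1, z ≠ 0 → 0 < (inner ℂ z (h z)).re}

/-- The homogeneous part `P_m(z) = (1/m!) D^m h(0)(z, …, z)`. -/
noncomputable def P {n : ℕ} (h : Map n) (m : ℕ) : Map n :=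
  fun z => ((m.factorial : ℂ)⁻¹) • iteratedFDeriv ℂ m h 0 (fun _ => z)

/-- The set of all `‖P_m(z)‖` with `‖z‖ = 1`. -/
def values {n : ℕ} (h : Map n) (m : ℕ) : Set ℝ := (fun z => ‖P h m z‖) '' sphere 0 1

/-- `‖P_m‖ = max {‖P_m(z)‖ : ‖z‖ = 1}` (as a supremum; `result` proves that it is attained). -/
noncomputable def polyNorm {n : ℕ} (h : Map n) (m : ℕ) : ℝ := sSup (values h m)

/-- `C_{m,n} = sup {‖P_m‖ : h ∈ M}`. -/
noncomputable def C (m n : ℕ) : ℝ := sSup ((fun h => polyNorm h m) '' Caratheodory n)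

end Pool.Agent.H11Cara
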