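import Pool.Agent.H11Cara.Bound

open Complex Metric Set Filter Topology Real

namespace Pool.Agent.H11Cara

/-- weighted AM-GM in power form -/
lemma amgm {m : ℕ} (hm : 2 ≤ m) {X Y : ℝ} (hX : 0 ≤ X) (hY : 0 ≤ Y) :
    aM m ^ 2 * (Y ^ m * X) ≤ (X + Y) ^ (m + 1) := by
  have hm0 : (0 : ℝ) < m := by exact_mod_cast (by omega : 0 < m)
  have hm1 : (0 : ℝ) < (m : ℝ) + 1 := by positivity
  have h1 := Real.geom_mean_le_arith_mean2_weighted (w₁ := (m : ℝ) / (m + 1)) (w₂ := 1 / ((m : ℝ) + 1))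
    (p₁ := Y / m) (p₂ := X) (by positivity) (by positivity) (by positivity) hX (by field_simp)
  have h2 : (m : ℝ) / (m + 1) * (Y / m) + 1 / ((m : ℝ) + 1) * X = (X + Y) / (m + 1) := by
    field_simp; ring
  rw [h2] at h1
  have h3 : ((Y / m) ^ ((m : ℝ) / (m + 1)) * X ^ (1 / ((m : ℝ) + 1))) ^ (m + 1) = (Y / m) ^ m * X := by
    rw [mul_pow, ← Real.rpow_natCast, ← Real.rpow_natCast, ← Real.rpow_mul (by positivity),
      ← Real.rpow_mul hX]
    have e1 : (m : ℝ) / (m + 1) * ((m + 1 : ℕ) : ℝ) = m := by push_cast; field_simp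
    have e2 : 1 / ((m : ℝ) + 1) * ((m + 1 : ℕ) : ℝ) = 1 := by push_cast; field_simp
    rw [e1, e2, Real.rpow_natCast, Real.rpow_one]
  have h4 : (Y / m) ^ m * X ≤ ((X + Y) / (m + 1)) ^ (m + 1) := by
    rw [← h3]
    apply pow_le_pow_left₀ _ h1
    positivity
  rw [aM_sq hm]
  rw [div_pow, div_pow] at h4
  have h5 : (0 : ℝ) < ((m : ℝ) + 1) ^ (m + 1) := by positivity
  have h6 : (0 : ℝ) < (m : ℝ) ^ m := by positivity
  calc ((m : ℝ) + 1) ^ (m + 1) / (m : ℝ) ^ m * (Y ^ m * X)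
      = ((m : ℝ) + 1) ^ (m + 1) * (Y ^ m / (m : ℝ) ^ m * X) := by ring
    _ ≤ ((m : ℝ) + 1) ^ (m + 1) * ((X + Y) ^ (m + 1) / ((m : ℝ) + 1) ^ (m + 1)) :=
        mul_le_mul_of_nonneg_left h4 h5.le
    _ = (X + Y) ^ (m + 1) := by field_simp

section
variable {n : ℕ}

/-- the extremal map `z ↦ z + a_m z_j^m e_i`. -/
noncomputable def ext (i j : Fin n) (m : ℕ) : EuclideanSpace ℂ (Fin n) → EuclideanSpace ℂ (Fin n) :=
  fun z => z + (((aM m : ℝ) : ℂ) * (z j) ^ m) • EuclideanSpace.single i (1 : ℂ)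

lemma ext_analytic (i j : Fin n) (m : ℕ) : AnalyticOnNhd ℂ (ext i j m) univ := by
  intro z _
  unfold ext
  have h1 : AnalyticAt ℂ (fun z : EuclideanSpace ℂ (Fin n) => z j) z :=
    (EuclideanSpace.proj (𝕜 := ℂ) j).analyticAt z
  exact analyticAt_id.add ((analyticAt_const.mul (h1.pow m)).smul analyticAt_const)

lemma ext_zero (i j : Fin n) {m : ℕ} (hm : 2 ≤ m) : ext i j m 0 = 0 := by
  have : m ≠ 0 := by omega
  simp [ext, this]

lemma ext_fderiv (i j : Fin n) {m : ℕ} (hm : 2 ≤ m) :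
    fderiv ℂ (ext i j m) 0 = ContinuousLinearMap.id ℂ _ := by
  have h1 : HasFDerivAt (fun z : EuclideanSpace ℂ (Fin n) => z j)
      (EuclideanSpace.proj (𝕜 := ℂ) j) 0 := (EuclideanSpace.proj (𝕜 := ℂ) j).hasFDerivAt
  have h2 := ((h1.pow m).const_mul ((aM m : ℝ) : ℂ)).smul_const (EuclideanSpace.single i (1 : ℂ))
  have h3 := (hasFDerivAt_id (𝕜 := ℂ) (0 : EuclideanSpace ℂ (Fin n))).add h2
  have h4 : HasFDerivAt (ext i j m) _ 0 := h3
  rw [h4.fderiv]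
  have : m - 1 ≠ 0 := by omega
  ext v
  simp [this]

lemma ext_pos (i j : Fin n) (hij : i ≠ j) {m : ℕ} (hm : 2 ≤ m) (z : EuclideanSpace ℂ (Fin n))
    (hz : z ∈ ball (0 : EuclideanSpace ℂ (Fin n)) 1) (hz0 : z ≠ 0) :
    0 < (inner ℂ z (ext i j m z)).re := by
  have hN : ‖z‖ < 1 := by simpa using hz
  have hN0 : 0 < ‖z‖ := norm_pos_iff.mpr hz0
  have h1 : inner ℂ z (ext i j m z) = ((‖z‖ : ℝ) : ℂ) ^ 2 +
      (((aM m : ℝ) : ℂ) * (z j) ^ m) * (starRingEnd ℂ) (z i) := by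
    unfold ext
    rw [inner_add_right, inner_smul_right, inner_self_eq_norm_sq_to_K, EuclideanSpace.inner_single_right]
    simp
  set t := (((aM m : ℝ) : ℂ) * (z j) ^ m) * (starRingEnd ℂ) (z i) with ht
  have h2 : ‖t‖ = aM m * ‖z j‖ ^ m * ‖z i‖ := by
    rw [ht, norm_mul, norm_mul, norm_pow, Complex.norm_real, Complex.norm_conj,
      Real.norm_of_nonneg (aM_pos hm).le]
  have h3 : ‖z i‖ ^ 2 + ‖z j‖ ^ 2 ≤ ‖z‖ ^ 2 := by
    rw [EuclideanSpace.norm_sq_eq]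
    have : ({i, j} : Finset (Fin n)) ⊆ Finset.univ := Finset.subset_univ _
    have h5 := Finset.sum_le_sum_of_subset_of_nonneg (f := fun k => ‖z k‖ ^ 2) this
      (fun k _ _ => sq_nonneg _)
    rw [Finset.sum_pair hij] at h5
    exact h5
  have h4 : ‖t‖ ^ 2 ≤ (‖z‖ ^ 2) ^ (m + 1) := by
    have h5 := amgm hm (sq_nonneg ‖z i‖) (sq_nonneg ‖z j‖)
    have h6 : ‖t‖ ^ 2 = aM m ^ 2 * ((‖z j‖ ^ 2) ^ m * ‖z i‖ ^ 2) := by rw [h2]; ring
    rw [h6]
    refine h5.trans ?_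
    exact pow_le_pow_left₀ (by positivity) h3 _
  have h5 : (‖z‖ ^ 2) ^ (m + 1) < (‖z‖ ^ 2) ^ 2 := by
    apply pow_lt_pow_right_of_lt_one₀ (by positivity) _ (by omega)
    nlinarith
  have h6 : ‖t‖ < ‖z‖ ^ 2 := lt_of_pow_lt_pow_left₀ 2 (by positivity) (h4.trans_lt h5)
  have h7 : -‖t‖ ≤ t.re := by
    have := Complex.abs_re_le_norm t
    exact (abs_le.mp this).1
  rw [h1, Complex.add_re]
  have h8 : (((‖z‖ : ℝ) : ℂ) ^ 2).re = ‖z‖ ^ 2 := by
    rw [← Complex.ofReal_pow, Complex.ofReal_re]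
  rw [h8]
  linarith

lemma ext_coeff (i j : Fin n) (hij : i ≠ j) {m : ℕ} (hm : 2 ≤ m) :
    aM m ≤ ‖((m.factorial : ℂ)⁻¹) • iteratedFDeriv ℂ m (ext i j m) 0
      (fun _ => EuclideanSpace.single j (1 : ℂ))‖ := by
  rw [← iteratedDeriv_line (ext_analytic i j m 0 (mem_univ _))]
  have h1 : (fun ζ : ℂ => ext i j m (ζ • EuclideanSpace.single j (1 : ℂ)))
      = fun ζ : ℂ => ζ • EuclideanSpace.single j (1 : ℂ)
        + ζ ^ m • (((aM m : ℝ) : ℂ) • EuclideanSpace.single i (1 : ℂ)) := by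
    funext ζ
    simp only [ext]
    congr 1
    rw [smul_smul]
    congr 1
    simp [mul_comm]
  have h2 : iteratedDeriv m (fun ζ : ℂ => ext i j m (ζ • EuclideanSpace.single j (1 : ℂ))) 0
      = (m.factorial : ℂ) • (((aM m : ℝ) : ℂ) • EuclideanSpace.single i (1 : ℂ)) := by
    rw [h1, iteratedDeriv_fun_add (by fun_prop) (by fun_prop), iteratedDeriv_smul_const (by fun_prop),
      iteratedDeriv_smul_const (by fun_prop), iteratedDeriv_fun_id_zero, iteratedDeriv_fun_pow_zero]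
    have hm1 : m ≠ 1 := by omega
    simp [hm1]
  rw [h2, smul_smul, inv_mul_cancel₀ (by exact_mod_cast m.factorial_ne_zero), one_smul, norm_smul]
  rw [Complex.norm_real, Real.norm_of_nonneg (aM_pos hm).le]
  simp

end

end Pool.Agent.H11Cara
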