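import Pool.Agent.H11Cara.Defs
import Pool.Agent.H11Cara.Lower

open Metric 
namespace Pool.Agent.H11Cara

theorem final (n : ℕ) (hn : 2 ≤ n) (m : ℕ) (hm : 2 ≤ m) :
      C m n = √(((m : ℝ) + 1) ^ (m + 1) / (m : ℝ) ^ m) ∧
      (∀ h ∈ Caratheodory n, IsGreatest (values h m) (polyNorm h m) ∧ polyNorm h m ≤ C m n) ∧
      (∃ h ∈ Caratheodory n, polyNorm h m = C m n) := by
  have hup : ∀ h ∈ Caratheodory n, ∀ z : EuclideanSpace ℂ (Fin n), ‖z‖ = 1 →
      ‖P h m z‖ ≤ aM m := by
    rintro h ⟨h1, h2, h3, h4⟩ z hz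
    apply upper h1 h2 h3.fderiv _ hm hz
    intro w hw
    by_cases hw0 : w = 0
    · rw [hw0, inner_zero_left]; simp
    · exact (h4 w hw hw0).le
  let i : Fin n := ⟨0, by omega⟩
  let j : Fin n := ⟨1, by omega⟩
  have hij : i ≠ j := by
    intro h; have := congrArg Fin.val h; simp [i, j] at this
  have hfd : HasFDerivAt (ext i j m) (ContinuousLinearMap.id ℂ _) 0 := by
    have h1 := (ext_analytic i j m 0 (Set.mem_univ _)).differentiableAt.hasFDerivAt
    rwa [ext_fderiv i j hm] at h1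
  have hext : ext i j m ∈ Caratheodory n :=
    ⟨(ext_analytic i j m).mono (Set.subset_univ _), ext_zero i j hm, hfd,
      fun z hz hz0 => ext_pos i j hij hm z hz hz0⟩
  have hjn : ‖(EuclideanSpace.single j (1 : ℂ) : EuclideanSpace ℂ (Fin n))‖ = 1 := by simp
  have hatt : ‖P (ext i j m) m (EuclideanSpace.single j (1 : ℂ))‖ = aM m :=
    le_antisymm (hup _ hext _ hjn) (ext_coeff i j hij hm)
  have hmax : ∀ h ∈ Caratheodory n, IsGreatest (values h m) (polyNorm h m) := by
    intro h hh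
    have hcont : Continuous (fun z : EuclideanSpace ℂ (Fin n) => ‖P h m z‖) := by
      unfold P
      apply Continuous.norm
      have hc : Continuous (fun z : EuclideanSpace ℂ (Fin n) =>
          iteratedFDeriv ℂ m h 0 (fun _ => z)) :=
        (iteratedFDeriv ℂ m h 0).cont.comp (continuous_pi fun _ => continuous_id)
      exact hc.const_smul ((m.factorial : ℂ)⁻¹)
    have hne : (values h m).Nonempty :=
      ⟨_, ⟨EuclideanSpace.single j (1 : ℂ), by simp, rfl⟩⟩
    exact ((isCompact_sphere _ _).image hcont).isGreatest_sSup hne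
  have hpn : ∀ h ∈ Caratheodory n, polyNorm h m ≤ aM m := by
    intro h hh
    obtain ⟨z, hz, hz'⟩ := (hmax h hh).1
    rw [← hz']
    exact hup h hh z (by simpa using hz)
  have hpe : polyNorm (ext i j m) m = aM m := by
    apply le_antisymm (hpn _ hext)
    have h1 := (hmax _ hext).2 ⟨EuclideanSpace.single j (1 : ℂ), by simp, rfl⟩
    simp only at h1
    rw [hatt] at h1
    exact h1
  have hC : C m n = aM m := by
    apply IsGreatest.csSup_eq
    refine ⟨⟨ext i j m, hext, hpe⟩, ?_⟩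
    rintro _ ⟨h, hh, rfl⟩
    exact hpn h hh
  refine ⟨hC, fun h hh => ⟨hmax h hh, ?_⟩, ⟨ext i j m, hext, ?_⟩⟩
  · rw [hC]; exact hpn h hh
  · rw [hC]; exact hpe

end Pool.Agent.H11Cara
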