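import Mathlib

open Complex Metric Set Filter Topology Real

namespace Pool.Agent.H11Cara

/-- vector valued coefficient formula -/
lemma avg_coeff {E : Type*} [NormedAddCommGroup E] [NormedSpace ℂ E] [CompleteSpace E]
    {f : ℂ → E} {r : ℝ} (hr : 0 < r) (hr1 : r < 1) (hf : DifferentiableOn ℂ f (ball 0 1)) (k : ℕ) :
    circleAverage (fun ζ => ((starRingEnd ℂ) ζ) ^ k • f ζ) 0 r
      = (((r : ℂ) ^ (2 * k)) * ((k.factorial : ℂ)⁻¹)) • iteratedDeriv k f 0 := by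
  have hsub : closedBall (0 : ℂ) r ⊆ ball 0 1 := closedBall_subset_ball hr1
  have h1 := (hf.mono hsub).circleIntegral_one_div_sub_center_pow_smul hr k
  rw [circleAverage_eq_circleIntegral hr.ne']
  have h2 : (∮ z in C(0, r), (z - 0)⁻¹ • ((starRingEnd ℂ) z) ^ k • f z)
      = ((r : ℂ) ^ (2 * k)) • ∮ z in C(0, r), (1 / (z - 0) ^ (k + 1)) • f z := by
    rw [← circleIntegral.integral_smul]
    apply circleIntegral.integral_congr hr.le
    intro z hz
    have hz' : ‖z‖ = r := by simpa using hz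
    have hz0 : z ≠ 0 := by
      intro h; rw [h] at hz'; simp at hz'; linarith
    have hc : (starRingEnd ℂ) z * z = (r : ℂ) ^ 2 := by
      rw [mul_comm, Complex.mul_conj, Complex.normSq_eq_norm_sq, hz']; push_cast; ring
    simp only [sub_zero, smul_smul]
    congr 1
    rw [pow_mul, ← hc, mul_pow]
    field_simp
    ring
  rw [h2, h1, smul_smul, smul_smul]
  congr 1
  have : (2 * (π : ℂ) * I) ≠ 0 := two_pi_I_ne_zero
  field_simp

lemma iteratedDeriv_line {E : Type*} [NormedAddCommGroup E] [NormedSpace ℂ E] [CompleteSpace E]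
    {F : Type*} [NormedAddCommGroup F] [NormedSpace ℂ F] [CompleteSpace F]
    {h : E → F} (hh : AnalyticAt ℂ h 0) (e : E) (m : ℕ) :
    iteratedDeriv m (fun ζ : ℂ => h (ζ • e)) 0 = iteratedFDeriv ℂ m h 0 (fun _ => e) := by
  obtain ⟨p, hp⟩ := hh
  obtain ⟨r, hr⟩ := hp
  let L : ℂ →L[ℂ] E := (ContinuousLinearMap.id ℂ ℂ).smulRight e
  have hL0 : L 0 = 0 := by simp
  have hL1 : L 1 = e := by simp [L]
  have hr' : HasFPowerSeriesOnBall h p (L 0) r := by rw [hL0]; exact hr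
  have h2 := hr'.compContinuousLinearMap
  have h3 := h2.factorial_smul 1 m
  rw [iteratedFDeriv_apply_eq_iteratedDeriv_mul_prod, Finset.prod_const_one, one_smul] at h3
  have h4 := hr.factorial_smul e m
  have hfun : (h ∘ L) = fun ζ : ℂ => h (ζ • e) := by
    funext ζ; simp [L]
  rw [hfun] at h3
  rw [← h3, ← h4]
  have h5 : (p.compContinuousLinearMap L m) (fun _ => (1 : ℂ)) = p m (fun _ => e) := by
    rw [FormalMultilinearSeries.compContinuousLinearMap_apply]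
    congr 1
    funext i
    simp [hL1]
  rw [h5]


section main

variable {E : Type*} [NormedAddCommGroup E] [InnerProductSpace ℂ E] [CompleteSpace E]

lemma z_bound {e V : E} {β ρ : ℝ} (hβ : 0 ≤ β) (hρ : 0 ≤ ρ) (he : ‖e‖ = 1) (hV : ‖V‖ = ρ)
    (hsum : β ^ 2 + ρ ^ 2 = 1) {u : ℂ} (hu : ‖u‖ ≤ 1) :
    ‖(β : ℂ) • e + u • V‖ ≤ ‖1 + (β * inner ℂ e V) * u‖ := by
  have h1 : ‖(β : ℂ) • e + u • V‖ ^ 2 = β ^ 2 + 2 * ((β * inner ℂ e V) * u).re
      + ‖u‖ ^ 2 * ρ ^ 2 := by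
    rw [norm_add_sq (𝕜 := ℂ), norm_smul, norm_smul, he, hV, inner_smul_left, inner_smul_right]
    have : ‖(β : ℂ)‖ = β := by simp [abs_of_nonneg hβ]
    rw [this, Complex.conj_ofReal]
    have h2 : RCLike.re ((β : ℂ) * (u * inner ℂ e V)) = ((β * inner ℂ e V) * u).re := by
      change ((β : ℂ) * (u * inner ℂ e V)).re = _
      congr 1; ring
    rw [h2]; ring
  have h2 : ‖1 + (β * inner ℂ e V) * u‖ ^ 2 = 1 + 2 * ((β * inner ℂ e V) * u).re
      + ‖(β * inner ℂ e V) * u‖ ^ 2 := by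
    rw [← Complex.normSq_eq_norm_sq, ← Complex.normSq_eq_norm_sq, Complex.normSq_add]
    rw [one_mul, Complex.conj_re, map_one]
    ring
  have h3 : ‖(β : ℂ) • e + u • V‖ ^ 2 ≤ ‖1 + (β * inner ℂ e V) * u‖ ^ 2 := by
    rw [h1, h2]
    have hu2 : ‖u‖ ^ 2 ≤ 1 := by
      have := norm_nonneg u
      nlinarith
    have := sq_nonneg (‖(β * inner ℂ e V) * u‖)
    have h4 : ‖u‖ ^ 2 * ρ ^ 2 ≤ ρ ^ 2 := by nlinarith [sq_nonneg ρ]
    linarith
  exact le_of_sq_le_sq h3 (norm_nonneg _)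

lemma d_bound {e V : E} {β ρ : ℝ} (hβ : 0 ≤ β) (he : ‖e‖ = 1) (hV : ‖V‖ = ρ) :
    ‖(β : ℂ) * inner ℂ e V‖ ≤ β * ρ := by
  rw [norm_mul]
  have : ‖(β : ℂ)‖ = β := by simp [abs_of_nonneg hβ]
  rw [this]
  have := norm_inner_le_norm (𝕜 := ℂ) e V
  rw [he, hV, one_mul] at this
  exact mul_le_mul_of_nonneg_left this hβ

/-- the key inequality for one fixed radius -/
lemma key {h : E → E} (hh : AnalyticOnNhd ℂ h (ball 0 1)) (h0 : h 0 = 0)
    (hD : fderiv ℂ h 0 = ContinuousLinearMap.id ℂ E)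
    (hpos : ∀ z ∈ ball (0 : E) 1, 0 ≤ (inner ℂ z (h z)).re)
    {m : ℕ} (hm : 2 ≤ m) {e V : E} {β ρ : ℝ} (hβ : 0 < β) (hρ : 0 ≤ ρ) (he : ‖e‖ = 1)
    (hV : ‖V‖ = ρ) (hsum : β ^ 2 + ρ ^ 2 = 1) {r : ℝ} (hr : 0 < r) (hr1 : r < 1) :
    0 ≤ r ^ 2 * β ^ 2 + r ^ (2 * m) * (ρ ^ 2 + β ^ m *
      (inner ℂ V (((m.factorial : ℂ)⁻¹) • iteratedFDeriv ℂ m h 0 (fun _ => e))).re) := by
  set d : ℂ := (β : ℂ) * inner ℂ e V with hd
  have hdn : ‖d‖ ≤ β * ρ := d_bound hβ.le he hV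
  have hd1 : ‖d‖ < 1 := by
    nlinarith [sq_nonneg (β - ρ)]
  set q : ℂ → ℂ := fun ζ => 1 + d * ζ ^ (m - 1) with hq
  have hm1 : m - 1 ≠ 0 := by omega
  have hqne : ∀ ζ ∈ ball (0 : ℂ) 1, q ζ ≠ 0 := by
    intro ζ hζ hz
    have hζ' : ‖ζ‖ < 1 := by simpa using hζ
    have h1 : d * ζ ^ (m - 1) = -1 := by
      have : 1 + d * ζ ^ (m - 1) = 0 := hz
      linear_combination this
    have h2 : ‖d * ζ ^ (m - 1)‖ < 1 := by
      rw [norm_mul, norm_pow]
      have : ‖ζ‖ ^ (m - 1) ≤ 1 := pow_le_one₀ (norm_nonneg _) hζ'.le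
      nlinarith [norm_nonneg d, pow_nonneg (norm_nonneg ζ) (m - 1)]
    rw [h1] at h2
    simp at h2
  set w : ℂ → E := fun ζ => (ζ * β) • e + ζ ^ m • V with hw
  set Z : ℂ → E := fun ζ => (q ζ)⁻¹ • w ζ with hZ
  have hqw : ∀ ζ, ζ ∈ ball (0 : ℂ) 1 → ‖w ζ‖ ≤ ‖ζ‖ * ‖q ζ‖ := by
    intro ζ hζ
    have hζ' : ‖ζ‖ < 1 := by simpa using hζ
    have h1 : w ζ = ζ • ((β : ℂ) • e + ζ ^ (m - 1) • V) := by
      simp only [hw, smul_add, smul_smul]
      congr 2
      rw [← pow_succ']; congr 1; omega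
    rw [h1, norm_smul]
    apply mul_le_mul_of_nonneg_left _ (norm_nonneg _)
    apply z_bound hβ.le hρ he hV hsum
    rw [norm_pow]
    exact pow_le_one₀ (norm_nonneg _) hζ'.le
  have hZmem : ∀ ζ ∈ ball (0 : ℂ) 1, Z ζ ∈ ball (0 : E) 1 := by
    intro ζ hζ
    have hζ' : ‖ζ‖ < 1 := by simpa using hζ
    have h1 := hqw ζ hζ
    have h2 : 0 < ‖q ζ‖ := norm_pos_iff.mpr (hqne ζ hζ)
    rw [mem_ball_zero_iff]
    simp only [hZ]
    rw [norm_smul, norm_inv, inv_mul_lt_iff₀ h2]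
    nlinarith
  set g : ℂ → E := fun ζ => h (ζ • ((β : ℂ) • e)) with hg
  have hβ1 : β ≤ 1 := by nlinarith [sq_nonneg ρ]
  have hgmem : ∀ ζ ∈ ball (0 : ℂ) 1, ζ • ((β : ℂ) • e) ∈ ball (0 : E) 1 := by
    intro ζ hζ
    have hζ' : ‖ζ‖ < 1 := by simpa using hζ
    rw [mem_ball_zero_iff, norm_smul, norm_smul, he]
    have : ‖(β : ℂ)‖ = β := by simp [abs_of_nonneg hβ.le]
    rw [this]
    nlinarith [norm_nonneg ζ]
  set H : ℂ → E := fun ζ => (q ζ) • h (Z ζ) with hH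
  have hqd : Differentiable ℂ q := by
    simp only [hq]; fun_prop
  have hwd : Differentiable ℂ w := by
    simp only [hw]; fun_prop
  have hZd : DifferentiableOn ℂ Z (ball 0 1) := by
    simp only [hZ]
    exact (hqd.differentiableOn.inv hqne).smul hwd.differentiableOn
  have hhd : DifferentiableOn ℂ h (ball 0 1) := hh.differentiableOn
  have hgd : DifferentiableOn ℂ g (ball 0 1) := by
    apply hhd.comp _ hgmem
    fun_prop
  have hHd : DifferentiableOn ℂ H (ball 0 1) := by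
    apply hqd.differentiableOn.smul
    exact hhd.comp hZd hZmem
  -- positivity
  have hpos2 : ∀ ζ ∈ ball (0 : ℂ) 1, 0 ≤ (inner ℂ (w ζ) (H ζ)).re := by
    intro ζ hζ
    have h1 : w ζ = q ζ • Z ζ := by
      simp only [hZ, smul_smul]
      rw [mul_inv_cancel₀ (hqne ζ hζ), one_smul]
    rw [h1]
    simp only [hH]
    rw [inner_smul_left, inner_smul_right, ← mul_assoc, mul_comm ((starRingEnd ℂ) (q ζ)),
      Complex.mul_conj, Complex.re_ofReal_mul]
    exact mul_nonneg (Complex.normSq_nonneg _) (hpos _ (hZmem ζ hζ))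
  set e' : E := (β : ℂ) • e with he'
  have hball0 : (0 : ℂ) ∈ ball (0 : ℂ) 1 := by simp
  have hq0 : q 0 = 1 := by simp [hq, hm1]
  have hqt : Tendsto q (𝓝[≠] 0) (𝓝 1) := by
    have := (hqd 0).continuousAt.tendsto
    rw [hq0] at this
    exact this.mono_left nhdsWithin_le_nhds
  have hqit : Tendsto (fun ζ => (q ζ)⁻¹) (𝓝[≠] 0) (𝓝 1) := by
    simpa using hqt.inv₀ one_ne_zero
  have hYt : Tendsto (fun ζ : ℂ => ζ • e') (𝓝[≠] 0) (𝓝 0) := by
    have h1 : Continuous (fun ζ : ℂ => ζ • e') := by fun_prop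
    have := (h1.tendsto 0)
    simp only [zero_smul] at this
    exact this.mono_left nhdsWithin_le_nhds
  have hw0 : w 0 = 0 := by
    have : m ≠ 0 := by omega
    simp [hw, this]
  have hZt : Tendsto Z (𝓝[≠] 0) (𝓝 0) := by
    have h1 : Tendsto w (𝓝[≠] 0) (𝓝 0) := by
      have := (hwd 0).continuousAt.tendsto
      rw [hw0] at this
      exact this.mono_left nhdsWithin_le_nhds
    have := hqit.smul h1
    simpa [hZ] using this
  have hζm : ∀ ζ : ℂ, ζ ^ m = ζ ^ (m - 1) * ζ := by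
    intro ζ; rw [← pow_succ]; congr 1; omega
  have hZY : ∀ ζ ∈ ball (0 : ℂ) 1, Z ζ - ζ • e' = ζ ^ m • ((q ζ)⁻¹ • (V - d • e')) := by
    intro ζ hζ
    have h1 : ζ • e' = (q ζ)⁻¹ • (q ζ • (ζ • e')) := by
      rw [smul_smul (q ζ)⁻¹, inv_mul_cancel₀ (hqne ζ hζ), one_smul]
    rw [h1]
    simp only [hZ]
    rw [← smul_sub, smul_comm (ζ ^ m)]
    congr 1
    simp only [hw, hq, he', hζm ζ]
    module
  have hbm : ∀ᶠ ζ : ℂ in 𝓝[≠] 0, ζ ∈ ball (0 : ℂ) 1 :=
    mem_nhdsWithin_of_mem_nhds (ball_mem_nhds _ one_pos)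
  have hs : HasStrictFDerivAt h (ContinuousLinearMap.id ℂ E) 0 := by
    have h1 := (hh 0 (by simp)).hasStrictFDerivAt
    rwa [hD] at h1
  have hlo := hs.isLittleO
  have T1 : Tendsto (fun ζ : ℂ => (ζ ^ m)⁻¹ • (h (Z ζ) - h (ζ • e') - (Z ζ - ζ • e'))) (𝓝[≠] 0) (𝓝 0) := by
    apply Asymptotics.IsLittleO.tendsto_inv_smul_nhds_zero
    have hk : Tendsto (fun ζ : ℂ => ((Z ζ, ζ • e') : E × E)) (𝓝[≠] 0) (𝓝 ((0, 0) : E × E)) := by
      rw [nhds_prod_eq]; exact hZt.prodMk hYt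
    have h1 := hlo.comp_tendsto hk
    refine Asymptotics.IsLittleO.trans_isBigO h1 ?_
    have h2 : (fun ζ : ℂ => ζ ^ m • ((q ζ)⁻¹ • (V - d • e'))) =O[𝓝[≠] 0] fun ζ : ℂ => ζ ^ m := by
      have h3 : Tendsto (fun ζ => (q ζ)⁻¹ • (V - d • e')) (𝓝[≠] 0) (𝓝 ((1 : ℂ) • (V - d • e'))) :=
        hqit.smul_const _
      have h4 := (Asymptotics.isBigO_refl (fun ζ : ℂ => ζ ^ m) (𝓝[≠] 0)).smul (h3.isBigO_one ℂ)
      simpa using h4
    refine h2.congr' ?_ (Filter.EventuallyEq.refl _ _)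
    filter_upwards [hbm] with ζ hζ
    simp only [Function.comp]
    exact (hZY ζ hζ).symm
  have T2 : Tendsto (fun ζ : ℂ => ζ⁻¹ • (h (ζ • e') - h 0 - (ζ • e' - 0))) (𝓝[≠] 0) (𝓝 0) := by
    apply Asymptotics.IsLittleO.tendsto_inv_smul_nhds_zero
    have hk : Tendsto (fun ζ : ℂ => ((ζ • e', 0) : E × E)) (𝓝[≠] 0) (𝓝 ((0, 0) : E × E)) := by
      rw [nhds_prod_eq]; exact hYt.prodMk tendsto_const_nhds
    have h1 := hlo.comp_tendsto hk
    refine Asymptotics.IsLittleO.trans_isBigO h1 ?_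
    have h4 := (Asymptotics.isBigO_refl (fun ζ : ℂ => ζ) (𝓝[≠] 0)).smul
      (Asymptotics.isBigO_const_const e' (one_ne_zero (α := ℂ)) (𝓝[≠] (0:ℂ)))
    have : (fun ζ : ℂ => ζ • e') =O[𝓝[≠] 0] fun ζ : ℂ => ζ := by simpa using h4
    refine this.congr' ?_ (Filter.EventuallyEq.refl _ _)
    filter_upwards with ζ
    simp
  set K : ℂ → E := Function.update (fun ζ => (ζ ^ m)⁻¹ • (H ζ - g ζ)) 0 V with hK
  have hK0 : K 0 = V := by simp [hK]
  have hKd : DifferentiableOn ℂ K (ball 0 1) := by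
    rw [← Complex.differentiableOn_compl_singleton_and_continuousAt_iff (c := 0) (ball_mem_nhds _ one_pos)]
    constructor
    · have h1 : DifferentiableOn ℂ (fun ζ : ℂ => (ζ ^ m)⁻¹ • (H ζ - g ζ)) (ball 0 1 \ {0}) := by
        apply DifferentiableOn.smul
        · apply DifferentiableOn.inv
          · fun_prop
          · intro x hx; exact pow_ne_zero _ hx.2
        · exact (hHd.sub hgd).mono sdiff_subset
      apply h1.congr
      intro x hx
      exact Function.update_of_ne hx.2 _ _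
    · rw [hK, continuousAt_update_same]
      have h3 : Tendsto (fun ζ => q ζ • ((q ζ)⁻¹ • (V - d • e') +
          (ζ ^ m)⁻¹ • (h (Z ζ) - h (ζ • e') - (Z ζ - ζ • e')))
          + d • (e' + ζ⁻¹ • (h (ζ • e') - h 0 - (ζ • e' - 0)))) (𝓝[≠] 0)
          (𝓝 ((1 : ℂ) • ((1 : ℂ) • (V - d • e') + 0) + d • (e' + 0))) :=
        (hqt.smul ((hqit.smul_const _).add T1)).add ((tendsto_const_nhds.add T2).const_smul d)
      have h4 : (1 : ℂ) • ((1 : ℂ) • (V - d • e') + 0) + d • (e' + 0) = V := by module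
      rw [h4] at h3
      refine h3.congr' ?_
      filter_upwards [hbm, self_mem_nhdsWithin] with ζ hζ hζ0
      have hζ0' : ζ ≠ 0 := hζ0
      have h5 : (q ζ)⁻¹ • (V - d • e') = (ζ ^ m)⁻¹ • (Z ζ - ζ • e') := by
        rw [hZY ζ hζ, smul_smul (ζ ^ m)⁻¹ (ζ ^ m), inv_mul_cancel₀ (pow_ne_zero _ hζ0'), one_smul]
      have h6 : e' = ζ⁻¹ • (ζ • e') := by
        rw [smul_smul, inv_mul_cancel₀ hζ0', one_smul]
      have h7 : H ζ - g ζ = q ζ • (h (Z ζ) - h (ζ • e')) + (d * ζ ^ (m - 1)) • h (ζ • e') := by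
        simp only [hH, hg, hq]; module
      have h8 : d • (e' + ζ⁻¹ • (h (ζ • e') - h 0 - (ζ • e' - 0))) = d • ζ⁻¹ • h (ζ • e') := by
        rw [h0]
        nth_rewrite 1 [h6]
        rw [← smul_add]; congr 2; simp
      have h9 : (q ζ)⁻¹ • (V - d • e') + (ζ ^ m)⁻¹ • (h (Z ζ) - h (ζ • e') - (Z ζ - ζ • e'))
          = (ζ ^ m)⁻¹ • (h (Z ζ) - h (ζ • e')) := by
        rw [h5, ← smul_add]; congr 1; abel
      rw [h8, h9, h7, smul_add, smul_comm (ζ ^ m)⁻¹ (q ζ), smul_smul (ζ ^ m)⁻¹, smul_smul d]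
      congr 2
      rw [hζm ζ]
      have : ζ ^ (m - 1) ≠ 0 := pow_ne_zero _ hζ0'
      field_simp
  have hsphere : sphere (0 : ℂ) r ⊆ ball 0 1 := fun x hx => by
    have : ‖x‖ = r := by simpa using hx
    rw [mem_ball_zero_iff, this]; exact hr1
  have habs : |r| = r := abs_of_pos hr
  have hconj : ∀ ζ ∈ sphere (0 : ℂ) |r|, (starRingEnd ℂ) ζ * ζ = (r : ℂ) ^ 2 := by
    intro z hz
    have hz' : ‖z‖ = r := by rw [habs] at hz; simpa using hz
    rw [mul_comm, Complex.mul_conj, Complex.normSq_eq_norm_sq, hz']; push_cast; ring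
  have hHg : ∀ ζ ∈ sphere (0 : ℂ) |r|, H ζ = g ζ + ζ ^ m • K ζ := by
    intro ζ hζ
    have hz' : ‖ζ‖ = r := by rw [habs] at hζ; simpa using hζ
    have hζ0 : ζ ≠ 0 := by
      intro h; rw [h] at hz'; simp at hz'; linarith
    rw [hK, Function.update_of_ne hζ0, smul_smul, mul_inv_cancel₀ (pow_ne_zero _ hζ0), one_smul]
    abel
  have hcc : ∀ k : ℕ, Continuous (fun ζ : ℂ => ((starRingEnd ℂ) ζ) ^ k) := by
    intro k; exact (Complex.continuous_conj).pow k
  have hci : ∀ (k : ℕ) (f : ℂ → E), DifferentiableOn ℂ f (ball 0 1) →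
      CircleIntegrable (fun ζ => ((starRingEnd ℂ) ζ) ^ k • f ζ) 0 r := by
    intro k f hf
    apply ContinuousOn.circleIntegrable hr.le
    exact (hcc k).continuousOn.smul (hf.continuousOn.mono hsphere)
  have hmv : ∀ (f : ℂ → E), DifferentiableOn ℂ f (ball 0 1) → circleAverage f 0 r = f 0 := by
    intro f hf
    apply DiffContOnCl.circleAverage
    rw [habs]
    apply DifferentiableOn.diffContOnCl
    apply hf.mono
    exact closure_ball_subset_closedBall.trans (closedBall_subset_ball hr1)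
  have A2 : circleAverage (fun ζ => ((starRingEnd ℂ) ζ) ^ m • H ζ) 0 r
      = ((r : ℂ) ^ (2 * m)) • (V + (β : ℂ) ^ m • (((m.factorial : ℂ)⁻¹) • iteratedFDeriv ℂ m h 0 (fun _ => e))) := by
    have h1 : circleAverage (fun ζ => ((starRingEnd ℂ) ζ) ^ m • H ζ) 0 r
        = circleAverage (fun ζ => ((starRingEnd ℂ) ζ) ^ m • g ζ + ((r : ℂ) ^ (2 * m)) • K ζ) 0 r := by
      apply circleAverage_congr_sphere
      intro ζ hζ
      simp only
      rw [hHg ζ hζ, smul_add, smul_smul, ← mul_pow, hconj ζ hζ, ← pow_mul]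
    rw [h1, circleAverage_fun_add (hci m g hgd), circleAverage_fun_smul, hmv K hKd, hK0,
      avg_coeff hr hr1 hgd]
    · have h2 : iteratedDeriv m g 0 = (β : ℂ) ^ m • iteratedFDeriv ℂ m h 0 (fun _ => e) := by
        rw [hg, iteratedDeriv_line (hh 0 (by simp)), he', ContinuousMultilinearMap.map_smul_univ]
        simp
      rw [h2]
      module
    · apply ContinuousOn.circleIntegrable hr.le
      exact (hKd.continuousOn.mono hsphere).const_smul _
  have A1 : circleAverage (fun ζ => ((starRingEnd ℂ) ζ) ^ 1 • H ζ) 0 r = ((r : ℂ) ^ 2) • e' := by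
    have h1 : circleAverage (fun ζ => ((starRingEnd ℂ) ζ) ^ 1 • H ζ) 0 r
        = circleAverage (fun ζ => ((starRingEnd ℂ) ζ) ^ 1 • g ζ + ((r : ℂ) ^ 2) • (ζ ^ (m - 1) • K ζ)) 0 r := by
      apply circleAverage_congr_sphere
      intro ζ hζ
      simp only
      rw [hHg ζ hζ, smul_add, hζm ζ, ← hconj ζ hζ]
      module
    have hKd' : DifferentiableOn ℂ (fun ζ : ℂ => ζ ^ (m - 1) • K ζ) (ball 0 1) := by
      apply DifferentiableOn.smul _ hKd
      fun_prop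
    rw [h1, circleAverage_fun_add (hci 1 g hgd), circleAverage_fun_smul, hmv _ hKd',
      avg_coeff hr hr1 hgd]
    · have h2 : iteratedDeriv 1 g 0 = e' := by
        rw [hg, iteratedDeriv_line (hh 0 (by simp)), iteratedFDeriv_one_apply, hD]
        rfl
      rw [h2]
      simp [hm1]
    · apply ContinuousOn.circleIntegrable hr.le
      exact (hKd'.continuousOn.mono hsphere).const_smul _
  let L1 : E →L[ℝ] ℝ := Complex.reCLM.comp ((innerSL ℂ e').restrictScalars ℝ)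
  let L2 : E →L[ℝ] ℝ := Complex.reCLM.comp ((innerSL ℂ V).restrictScalars ℝ)
  have hL1 : ∀ x, L1 x = (inner ℂ e' x).re := fun x => rfl
  have hL2 : ∀ x, L2 x = (inner ℂ V x).re := fun x => rfl
  have B1 := L1.circleAverage_comp_comm (hci 1 H hHd)
  have B2 := L2.circleAverage_comp_comm (hci m H hHd)
  rw [A1] at B1
  rw [A2] at B2
  have C0 : 0 ≤ circleAverage (fun ζ => (inner ℂ (w ζ) (H ζ)).re) 0 r := by
    apply circleAverage_nonneg_of_nonneg
    intro ζ hζ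
    rw [habs] at hζ
    exact hpos2 ζ (hsphere hζ)
  have C1 : circleAverage (fun ζ => (inner ℂ (w ζ) (H ζ)).re) 0 r
      = L1 (((r : ℂ) ^ 2) • e') + L2 (((r : ℂ) ^ (2 * m)) • (V + (β : ℂ) ^ m • (((m.factorial : ℂ)⁻¹) • iteratedFDeriv ℂ m h 0 (fun _ => e)))) := by
    rw [← B1, ← B2, ← circleAverage_add]
    · congr 1
      funext ζ
      simp only [Function.comp, Pi.add_apply, hL1, hL2, hw, he', inner_add_left, inner_smul_left,
        inner_smul_right, map_mul, map_pow, Complex.add_re, Complex.conj_ofReal, pow_one]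
      congr 2
      ring
    · apply ContinuousOn.circleIntegrable hr.le
      exact L1.continuous.comp_continuousOn (((hcc 1).continuousOn).smul (hHd.continuousOn.mono hsphere))
    · apply ContinuousOn.circleIntegrable hr.le
      exact L2.continuous.comp_continuousOn (((hcc m).continuousOn).smul (hHd.continuousOn.mono hsphere))
  rw [C1, hL1, hL2] at C0
  set v := (((m.factorial : ℂ)⁻¹) • iteratedFDeriv ℂ m h 0 (fun _ => e)) with hv
  have D1 : (inner ℂ e' (((r : ℂ) ^ 2) • e')).re = r ^ 2 * β ^ 2 := by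
    rw [inner_smul_right, he', inner_smul_left, inner_smul_right, inner_self_eq_norm_sq_to_K, he,
      Complex.conj_ofReal]
    have : (r : ℂ) ^ 2 * ((β : ℂ) * ((β : ℂ) * ((1 : ℝ) : ℂ) ^ 2)) = ((r ^ 2 * β ^ 2 : ℝ) : ℂ) := by
      push_cast; ring
    refine (congrArg Complex.re this).trans (Complex.ofReal_re _)
  have D2 : (inner ℂ V (((r : ℂ) ^ (2 * m)) • (V + (β : ℂ) ^ m • v))).re
      = r ^ (2 * m) * (ρ ^ 2 + β ^ m * (inner ℂ V v).re) := by
    rw [inner_smul_right, inner_add_right, inner_smul_right, inner_self_eq_norm_sq_to_K, hV]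
    rw [← Complex.ofReal_pow, ← Complex.ofReal_pow, Complex.re_ofReal_mul, Complex.add_re,
      Complex.re_ofReal_mul]
    congr 2
    norm_cast
  rw [D1, D2] at C0
  exact C0

end main

end Pool.Agent.H11Cara
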